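import Pool.Agent.Y935.RE.Stm
import Pool.Agent.Y614.WR.Low

/-!
# Lower bound for a weighted window count, real exponents (project RE, job LOW)
-/

set_option autoImplicit false

namespace Pool.Agent.Y210.RE

open Finset MeasureTheory Filter
open Pool.Agent.Helper602.MK (ee)
open Pool.Agent.Y935.WR (Wt)
open Pool.Agent.Y935.RE
open Pool.Agent.Y614.WR (Wt_ge Wt_nonneg sin_sq_eq)

/-- Difference of powers. -/
theorem rpow_sub_le {c a b B : ℝ} (hc : 1 ≤ c) (ha : 0 ≤ a) (hb : 0 ≤ b) (haB : a ≤ B)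
    (hbB : b ≤ B) : |a ^ c - b ^ c| ≤ c * B ^ (c - 1) * |a - b| := by
  have h := (convex_Icc (0 : ℝ) B).norm_image_sub_le_of_norm_hasDerivWithin_le
    (f := fun x : ℝ => x ^ c) (f' := fun x : ℝ => c * x ^ (c - 1)) (C := c * B ^ (c - 1))
    (fun x _ => (Real.hasDerivAt_rpow_const (Or.inr hc)).hasDerivWithinAt)
    (fun x hx => by
      rw [Real.norm_eq_abs, abs_of_nonneg (mul_nonneg (by linarith) (Real.rpow_nonneg hx.1 _))]
      exact mul_le_mul_of_nonneg_left (Real.rpow_le_rpow hx.1 hx.2 (by linarith)) (by linarith))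
    ⟨hb, hbB⟩ ⟨ha, haB⟩
  simpa [Real.norm_eq_abs] using h

/-- LOW -/
theorem low : S_LOW := by
  intro c κ T hc hκ0 hκ1 hT
  have hT' : (2 : ℝ) ≤ T := by exact_mod_cast hT
  have hc0 : 0 < c := by linarith
  set c1 : ℝ := 1 / (8 * c * (T : ℝ) ^ (c - 1)) with hc1
  have hTc : (1 : ℝ) ≤ (T : ℝ) ^ (c - 1) := Real.one_le_rpow (by linarith) (by linarith)
  have hc10 : 0 < c1 := by rw [hc1]; positivity
  have hc1k : c * (T : ℝ) ^ (c - 1) * c1 = 1 / 8 := by
    rw [hc1]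
    have : (T : ℝ) ^ (c - 1) ≠ 0 := by linarith
    field_simp
  have hc14 : c1 ≤ 1 / 4 := by
    have h2 : 1 * 1 * c1 ≤ c * (T : ℝ) ^ (c - 1) * c1 := by gcongr
    rw [hc1k] at h2
    linarith
  refine ⟨c1 / 16, by positivity, ?_⟩
  have hev : ∀ᶠ P : ℕ in atTop, (3 : ℝ) ≤ P ∧ 4 / c1 ≤ (P : ℝ) ^ (1 - κ) := by
    have ha : ∀ x : ℝ, ∀ᶠ N : ℕ in atTop, x ≤ (N : ℝ) := fun x =>
      tendsto_natCast_atTop_atTop.eventually_ge_atTop x
    have hb : Tendsto (fun p : ℕ => (p : ℝ) ^ (1 - κ)) atTop atTop :=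
      (tendsto_rpow_atTop (by linarith)).comp tendsto_natCast_atTop_atTop
    exact (ha _).and (hb.eventually_ge_atTop _)
  filter_upwards [hev] with P hP α M v E hα hM1 hM2 hv1 hv2 hE hEc
  obtain ⟨hP3, hP4⟩ := hP
  have hP0 : (0 : ℝ) < P := by linarith
  have hα0 : (0 : ℝ) < α := by linarith
  -- size of `M`
  have hPk1 : 0 < (P : ℝ) ^ (c - 1) := by positivity
  have hPk : (P : ℝ) ^ c = (P : ℝ) ^ (c - 1) * P := by
    rw [← Real.rpow_add_one hP0.ne']
    congr 1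
    ring
  have hMP : α * ((P : ℝ) ^ (c - 1) * (P : ℝ) ^ (1 - κ)) ≤ M := by
    refine le_trans (le_of_eq ?_) hM1
    rw [← Real.rpow_add hP0]
    congr 2
    ring
  have hM0 : (0 : ℝ) < M := lt_of_lt_of_le (by positivity) hMP
  have hM3 : (1 : ℝ) ≤ M := by
    refine le_trans ?_ hM1
    have h1 : (P : ℝ) ^ (0 : ℝ) ≤ (P : ℝ) ^ (c - κ) :=
      Real.rpow_le_rpow_of_exponent_le (by linarith) (by linarith)
    rw [Real.rpow_zero] at h1
    have h2 : 1 * (P : ℝ) ^ (c - κ) ≤ α * (P : ℝ) ^ (c - κ) :=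
      mul_le_mul_of_nonneg_right hα (by positivity)
    linarith
  -- the length
  set L : ℝ := c1 * (M / (α * (P : ℝ) ^ (c - 1))) with hL
  have hL0 : 0 < L := by rw [hL]; positivity
  have hL4 : 4 ≤ L := by
    rw [hL]
    have h1 : (P : ℝ) ^ (1 - κ) ≤ M / (α * (P : ℝ) ^ (c - 1)) := by
      rw [le_div_iff₀ (by positivity)]
      linarith
    rw [div_le_iff₀ hc10] at hP4
    have h2 : c1 * (P : ℝ) ^ (1 - κ) ≤ c1 * (M / (α * (P : ℝ) ^ (c - 1))) :=
      mul_le_mul_of_nonneg_left h1 hc10.le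
    linarith
  have hLP : L ≤ P / 4 := by
    rw [hL]
    have h1 : M / (α * (P : ℝ) ^ (c - 1)) ≤ P := by
      rw [div_le_iff₀ (by positivity)]
      rw [hPk] at hM2
      linarith
    have h2 : c1 * (M / (α * (P : ℝ) ^ (c - 1))) ≤ 1 / 4 * P := by gcongr
    linarith
  have h2TP : (2 : ℝ) * P ≤ T * P := mul_le_mul_of_nonneg_right hT' hP0.le
  have hTP0 : (0 : ℝ) ≤ T * P := by positivity
  -- the centre
  set w : ℝ := ((v : ℝ) / α) ^ (1 / c) with hw
  have hv0 : 0 ≤ (v : ℝ) / α := by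
    have : (0 : ℝ) ≤ 2 * α * (P : ℝ) ^ c := by positivity
    exact div_nonneg (this.trans hv1) hα0.le
  have hwk : w ^ c = v / α := by
    rw [hw, ← Real.rpow_mul hv0, one_div_mul_cancel hc0.ne', Real.rpow_one]
  have hw0 : 0 ≤ w := by rw [hw]; positivity
  have hw1 : (P : ℝ) ≤ w := by
    have h2 : (P : ℝ) ^ c ≤ w ^ c := by
      rw [hwk, le_div_iff₀ hα0]
      have : 0 ≤ α * (P : ℝ) ^ c := by positivity
      linarith
    exact (Real.rpow_le_rpow_iff hP0.le hw0 hc0).1 h2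
  have hw2 : w ≤ T * P := by
    have h2 : w ^ c ≤ (T * P : ℝ) ^ c := by
      rw [hwk, div_le_iff₀ hα0]
      have : 0 ≤ α * (T * P : ℝ) ^ c := by positivity
      linarith
    exact (Real.rpow_le_rpow_iff hw0 hTP0 hc0).1 h2
  -- the interval
  obtain ⟨y, hy1, hy2, hy3, hy4⟩ : ∃ y : ℝ, (P : ℝ) ≤ y ∧ y + L ≤ T * P ∧ y ≤ w ∧
      w ≤ y + L := by
    by_cases h : w + L ≤ T * P
    · exact ⟨w, hw1, h, le_rfl, by linarith⟩
    · rw [not_le] at h
      refine ⟨w - L, ?_, by linarith, by linarith, by linarith⟩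
      linarith
  have hy0 : 0 ≤ y := by linarith
  set a : ℕ := ⌊y⌋₊ with ha
  set b : ℕ := ⌊y + L⌋₊ with hb
  have ha1 : (a : ℝ) ≤ y := Nat.floor_le hy0
  have ha2 : y < a + 1 := Nat.lt_floor_add_one y
  have hb1 : (b : ℝ) ≤ y + L := Nat.floor_le (by linarith)
  have hb2 : y + L < b + 1 := Nat.lt_floor_add_one _
  have hab : a + 1 ≤ b := by
    have : (a : ℝ) + 1 < b + 1 := by linarith
    have h2 : (a : ℝ) < b := by linarith
    exact_mod_cast h2
  have hPa : P ≤ a := by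
    rw [ha]; exact Nat.le_floor hy1
  have hbT : b ≤ T * P := by
    have : (b : ℝ) ≤ T * P := by linarith
    exact_mod_cast this
  set N : ℕ := b - (a + 1) with hN
  have hNL : L / 2 ≤ N := by
    rw [hN, Nat.cast_sub hab]
    push_cast
    linarith
  have hexp := hE (a + 1) N (by omega) (by omega)
  -- the terms
  have hterm : ∀ n ∈ range N, Real.sin (Real.pi * (α * ((a + 1 + n : ℕ) : ℝ) ^ c)) ^ 2 *
      (1 / (2 * M)) ≤ Real.sin (Real.pi * (α * ((a + 1 + n : ℕ) : ℝ) ^ c)) ^ 2 *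
        Wt M (v - ⌊α * ((a + 1 + n : ℕ) : ℝ) ^ c⌋) := by
    intro n hn
    rw [mem_range] at hn
    apply mul_le_mul_of_nonneg_left _ (sq_nonneg _)
    apply Wt_ge M _ (by exact_mod_cast hM3)
    set z : ℝ := ((a + 1 + n : ℕ) : ℝ) with hz
    have hzb : a + 1 + n ≤ b := by omega
    have hz1 : z ≤ y + L := by
      have : z ≤ b := by rw [hz]; exact_mod_cast hzb
      linarith
    have hz2 : y ≤ z := by
      have : (a : ℝ) + 1 ≤ z := by rw [hz]; push_cast; linarith [(Nat.cast_nonneg n : (0 : ℝ) ≤ n)]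
      linarith
    have hzw : |z - w| ≤ L := by
      rw [abs_le]
      constructor <;> linarith
    have hd := rpow_sub_le hc.le (by linarith : (0 : ℝ) ≤ z) hw0 (by linarith : z ≤ T * P) hw2
    have hd2 : |α * z ^ c - v| ≤ M / 8 := by
      have e1 : (v : ℝ) = α * w ^ c := by rw [hwk]; field_simp
      rw [e1, ← mul_sub, abs_mul, abs_of_pos hα0]
      calc α * |z ^ c - w ^ c| ≤ α * (c * (T * P : ℝ) ^ (c - 1) * L) :=
            mul_le_mul_of_nonneg_left (hd.trans (mul_le_mul_of_nonneg_left hzw (by positivity)))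
              hα0.le
        _ = (c * (T : ℝ) ^ (c - 1) * c1) * M := by
            rw [hL, Real.mul_rpow (by linarith) hP0.le]
            field_simp
        _ = M / 8 := by rw [hc1k]; ring
    have hfl1 := Int.floor_le (α * z ^ c)
    have hfl2 := Int.lt_floor_add_one (α * z ^ c)
    obtain ⟨hd3, hd4⟩ := abs_le.1 hd2
    have hM3' : (3 : ℝ) ≤ M := by
      have h5 : L / c1 ≤ M := by
        rw [hL, mul_div_assoc, mul_comm, div_mul_cancel₀ _ hc10.ne']
        rw [div_le_iff₀ (by positivity)]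
        have h6 : (1 : ℝ) ≤ α * (P : ℝ) ^ (c - 1) :=
          one_le_mul_of_one_le_of_one_le hα (Real.one_le_rpow (by linarith) (by linarith))
        exact le_mul_of_one_le_right hM0.le h6
      have h7 : 4 ≤ L / c1 := by
        rw [le_div_iff₀ hc10]
        nlinarith
      linarith
    have hfin : |((v - ⌊α * z ^ c⌋ : ℤ) : ℝ)| ≤ M / 2 := by
      rw [abs_le]
      push_cast
      constructor <;> linarith
    have h9 : (2 : ℝ) * |((v - ⌊α * z ^ c⌋ : ℤ) : ℝ)| ≤ M := by linarith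
    exact_mod_cast h9
  -- the sum
  have hsub : ∑ n ∈ range N, Real.sin (Real.pi * (α * ((a + 1 + n : ℕ) : ℝ) ^ c)) ^ 2 *
        Wt M (v - ⌊α * ((a + 1 + n : ℕ) : ℝ) ^ c⌋) ≤ ∑ z ∈ Ioc P (T * P),
      Real.sin (Real.pi * (α * (z : ℝ) ^ c)) ^ 2 * Wt M (v - ⌊α * (z : ℝ) ^ c⌋) := by
    have e1 : ∑ z ∈ Ico (a + 1) b, Real.sin (Real.pi * (α * (z : ℝ) ^ c)) ^ 2 *
        Wt M (v - ⌊α * (z : ℝ) ^ c⌋) = ∑ n ∈ range N,
        Real.sin (Real.pi * (α * ((a + 1 + n : ℕ) : ℝ) ^ c)) ^ 2 *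
        Wt M (v - ⌊α * ((a + 1 + n : ℕ) : ℝ) ^ c⌋) := by
      rw [Finset.sum_Ico_eq_sum_range]
    rw [← e1]
    apply sum_le_sum_of_subset_of_nonneg
    · intro z hz
      rw [mem_Ico] at hz
      rw [mem_Ioc]
      omega
    · intro z _ _
      exact mul_nonneg (sq_nonneg _) (Wt_nonneg _ _)
  refine le_trans ?_ hsub
  refine le_trans ?_ (sum_le_sum hterm)
  rw [← sum_mul]
  have hsin : (N : ℝ) / 2 - E / 2 ≤
      ∑ n ∈ range N, Real.sin (Real.pi * (α * ((a + 1 + n : ℕ) : ℝ) ^ c)) ^ 2 := by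
    have e1 : ∀ n ∈ range N, Real.sin (Real.pi * (α * ((a + 1 + n : ℕ) : ℝ) ^ c)) ^ 2 =
        1 / 2 - (ee (α * (((a + 1 : ℕ) : ℝ) + n) ^ c)).re / 2 := by
      intro n _
      rw [sin_sq_eq]
      push_cast
      rfl
    rw [sum_congr rfl e1, sum_sub_distrib, sum_const, card_range, nsmul_eq_mul, ← sum_div,
      ← Complex.re_sum]
    have h2 := (Complex.re_le_norm (∑ n ∈ range N, ee (α * (((a + 1 : ℕ) : ℝ) + n) ^ c))).trans hexp
    linarith
  have hE4 : E ≤ L / 4 := by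
    refine hEc.trans ?_
    rw [hL]
    have h1 : 0 ≤ (M : ℝ) / (α * (P : ℝ) ^ (c - 1)) := by positivity
    have h2 : 0 ≤ c1 * ((M : ℝ) / (α * (P : ℝ) ^ (c - 1))) := mul_nonneg hc10.le h1
    linarith
  have h8 : L / 8 ≤ ∑ n ∈ range N, Real.sin (Real.pi * (α * ((a + 1 + n : ℕ) : ℝ) ^ c)) ^ 2 := by
    linarith
  calc c1 / 16 / (α * (P : ℝ) ^ (c - 1)) = L / 8 * (1 / (2 * M)) := by
        rw [hL]
        field_simp
        ring
    _ ≤ _ := by gcongr

end Pool.Agent.Y210.RE
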